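import Pool.Agent.X242.MS2

/-!
# The monoid Stark conjecture for real quadratic orders and universal rational approximations

Let `K ⊂ ℝ` be a real quadratic field, `σ` the other real embedding, `O` an order of `K`, `𝔪 ≠ O` a nonzero integral ideal.

**Rational weights.** Let `C_1(γ) = -(γ_E + iγ)`, with Euler's constant `γ_E`. Fix `γ > π/2` and rational numbers `ρ_N(n)`,
for every `N` almost all of them zero, with
`|ρ_N(n) - Re (N e^{iγ log n / N} / (C_1(γ) Γ(1 + log n / N)))| ≤ 1 / (N n²)`. They exist and do not depend on `K`, `O`,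
`𝔪`. For an ideal `𝔞` in the ray class monoid let `z_n(𝔞)`, `n ≥ 1`, be the number of the integral ideals of index `n` in
the class `A` of `𝔞` minus the number of those in the class `RA`, and
`y_N(𝔞) = 2 ∑_n ρ_N(n) z_n(𝔞) - ∑_n ρ_{2N}(n) z_n(𝔞)`, a rational number, a finite combination of numbers of ideals.

1. If `Z(s, A)` has a continuation (analytic outside of `1`, meromorphic at `1`): `y_N(𝔞) = Z'(0, A) + O(1/N)`. No condition
   on `Z(0, A)` is needed, by the choice of the combination.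
2. Q1 is true for `(O, 𝔪)` if and only if the functions `Z(s, A)` have such continuations, there is a ray class field
   `(H, Art)`, and for every `𝔞` in the monoid the vectors `(y_N(𝔟𝔞))_𝔟` come arbitrarily close to the vectors
   `(-log Art(𝔟)(u))_𝔟` of Stark units `u` for arbitrarily large `N`; here `𝔟` runs through the ideals of the group, and a
   Stark unit is a unit `u` of `H`, positive with all its conjugates over `K`, of absolute value `1` at all the
   embeddings above `σ`, such that `H(g(u)^{1/2})` is abelian over `K` for all `g`. (The first two conditions are known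
   theorems; they are parts of the statement only because the problem takes them for granted.)
3. Q1 is true for all orders and moduli of `K` if and only if this condition holds for the moduli of the maximal order.

The proof of 3 uses the reduction to maximal orders (`Pool.Agent.W206.MS`).
-/

set_option autoImplicit false

namespace Pool.Agent.Results.MP_6bf7a3_nt.RationalApproximations

open Filter Topology NumberField Asymptotics
open Pool.Agent.X242.DR Pool.Agent.X242.MS Pool.Agent.W206.MS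

/-- `F` is the function `Z(s, A)`, `A` the class of `a`, continued to the plane: analytic outside of `1` and meromorphic
at `1`. -/
def IsZeta {K : Type} [Field K] (σ : K →+* ℝ) (O : Subalgebra ℤ K) (m a : Submodule ℤ K) (F : ℂ → ℂ) : Prop :=
  IsZ O m σ a F ∧ MeromorphicAt F 1

/-- Condition (i): `e = exp (-Z'(0, A))`. -/
def ConditionI {K : Type} [Field K] (σ : K →+* ℝ) (O : Subalgebra ℤ K) (m a : Submodule ℤ K) (e : ℝ) : Prop :=
  ∃ F : ℂ → ℂ, IsZeta σ O m a F ∧ (e : ℂ) = Complex.exp (- deriv F 0)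

variable {K : Type} [Field K] [Algebra K ℝ]

/-- The assertion of Q1 for the order `O` and the modulus `m`: a family of units of the ray class field, depending only on
classes, with (i)-(iv). -/
def Question (σ : K →+* ℝ) (O : Subalgebra ℤ K) (m : Submodule ℤ K) : Prop :=
  ∃ (H : IntermediateField K ℝ) (Art : Submodule ℤ K → (H ≃ₐ[K] H)), IsRayClassField σ O m H Art ∧
    ∃ ε : Submodule ℤ K → H, ∀ a, InMonoid O m a →
      (∀ b, InMonoid O m b → Rel O m σ b a → ε b = ε a) ∧
      (IsIntegral ℤ (ε a : ℝ) ∧ IsIntegral ℤ (ε a : ℝ)⁻¹) ∧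
      ConditionI σ O m a (ε a) ∧ CondII O m H Art ε a ∧ CondIII σ H (ε a) ∧ CondIV H (ε a)

/-- All the functions `Z(s, A)` have continuations. -/
def HasContinuations (σ : K →+* ℝ) (O : Subalgebra ℤ K) (m : Submodule ℤ K) : Prop :=
  ∀ a, InMonoid O m a → ∃ F : ℂ → ℂ, IsZeta σ O m a F

/-- There is a ray class field such that the vectors of approximations come close to the vectors of Stark units. -/
def Approximable (σ : K →+* ℝ) (O : Subalgebra ℤ K) (m : Submodule ℤ K) (κ : K) (ρ : ℕ → ℕ →₀ ℚ) : Prop :=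
  ∃ (H : IntermediateField K ℝ) (Art : Submodule ℤ K → (H ≃ₐ[K] H)), IsRayClassField σ O m H Art ∧
    Near σ O m H Art κ ρ

/-- `κ ∈ O`, `κ ≡ -1` modulo `m`, `σ κ > 0`: the class of `κ O` is `R`. -/
structure IsMinusOne (σ : K →+* ℝ) (O : Subalgebra ℤ K) (m : Submodule ℤ K) (κ : K) : Prop where
  mem : κ ∈ O
  minus : κ + 1 ∈ m
  pos : 0 < σ κ

theorem fin_of {K : Type} [Field K] [NumberField K] {O : Subalgebra ℤ K} {m : Submodule ℤ K}
    (hO : IsOrder O) (hm : IsModulus O m) : ∀ x ∈ O, ∃ k, 0 < k ∧ x ^ (2 * k) - x ^ k ∈ m :=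
  (mkPair hO hO le_rfl hm).fin_m

theorem stark_of [NumberField K] {σ : K →+* ℝ} {O : Subalgebra ℤ K} {m : Submodule ℤ K}
    (h : Question σ O m) : MonoidStark σ O m := by
  obtain ⟨H, Art, h1, ε, h2⟩ := h
  refine ⟨H, Art, h1, ε, fun a ha => ?_⟩
  obtain ⟨k1, k2, ⟨F, hF, he⟩, k4⟩ := h2 a ha
  exact ⟨k1, k2, ⟨F, hF.1, he⟩, k4⟩

theorem of_stark [NumberField K] {σ : K →+* ℝ} {O : Subalgebra ℤ K} {m : Submodule ℤ K}
    (hO : IsOrder O) (hm : IsModulus O m) (hZ : HasContinuations σ O m) (h : MonoidStark σ O m) :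
    Question σ O m := by
  obtain ⟨H, Art, h1, ε, h2⟩ := h
  refine ⟨H, Art, h1, ε, fun a ha => ?_⟩
  obtain ⟨k1, k2, ⟨F, hF, he⟩, k4⟩ := h2 a ha
  obtain ⟨F', hF'⟩ := hZ a ha
  refine ⟨k1, k2, ⟨F', hF', ?_⟩, k4⟩
  rw [he, isZ_unique hm.md (fin_of hO hm) ha hF hF'.1]

theorem has_of {σ : K →+* ℝ} {O : Subalgebra ℤ K} {m : Submodule ℤ K} (h : Question σ O m) :
    HasContinuations σ O m := by
  obtain ⟨H, Art, h1, ε, h2⟩ := h
  intro a ha
  obtain ⟨k1, k2, ⟨F, hF, he⟩, k4⟩ := h2 a ha
  exact ⟨F, hF⟩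

theorem question_iff [NumberField K] (hK : Module.finrank ℚ K = 2) {σ : K →+* ℝ} (hσ : σ ≠ algebraMap K ℝ)
    {O : Subalgebra ℤ K} {m : Submodule ℤ K} (hO : IsOrder O) (hm : IsModulus O m) {κ : K}
    (hκ : IsMinusOne σ O m κ) {γ : ℝ} (hγ : Real.pi / 2 < γ) {ρ : ℕ → ℕ →₀ ℚ} (hρ : IsRational 1 γ ρ) :
    Question σ O m ↔ HasContinuations σ O m ∧ Approximable σ O m κ ρ := by
  constructor
  · intro h
    have hZ := has_of h
    refine ⟨hZ, ?_⟩
    obtain ⟨H, Art, h1, h2⟩ := stark_of h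
    exact ⟨H, Art, h1, (stark_iff hK hσ hm.md (fin_of hO hm) hZ h1.1 h1.2.1 hκ.mem hκ.minus hκ.pos
      hγ hρ).1 h2⟩
  · rintro ⟨hZ, H, Art, h1, h2⟩
    exact of_stark hO hm hZ ⟨H, Art, h1, (stark_iff hK hσ hm.md (fin_of hO hm) hZ h1.1 h1.2.1 hκ.mem
      hκ.minus hκ.pos hγ hρ).2 h2⟩

/-- The continuations for an order from the ones for the maximal order. -/
theorem has_order [NumberField K] {σ : K →+* ℝ} {O : Subalgebra ℤ K} {m : Submodule ℤ K}
    (hO : IsOrder O) (hm : IsModulus O m)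
    (h : Question σ (integralClosure ℤ K) (m / OL (integralClosure ℤ K))) : HasContinuations σ O m := by
  classical
  have P := mkPair hO (isOrder_maxOrder K) (mem_maxOrder_of_fg hO.1) hm
  obtain ⟨H', Art', ⟨⟨hfd, hab⟩, ⟨hmul, hsurj, hker⟩, -⟩, -⟩ := id h
  have hfinG : Finite (H' ≃ₐ[K] H') := inferInstance
  have hfinQ : Finite (QQ P.mB σ) := P.finite_classes Art' hmul fun x hx h => (hker x hx).1 h
  have : Fintype (QQ P.mB σ) := Fintype.ofFinite _
  have hZ := has_of h
  intro a ha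
  have hF : ∀ q : QQ P.mB σ, ∃ F, IsZeta σ (integralClosure ℤ K) (m / OL (integralClosure ℤ K)) (rep q) F :=
    fun q => hZ _ (inMonoid_of_le P.mB (rep_inv q) (rep_le q))
  choose F hF using hF
  refine ⟨_, P.isZ ha F fun q => (hF q).1, ?_⟩
  have key : ∀ T : Finset (QQ P.mB σ), MeromorphicAt (fun s : ℂ => ∑ q ∈ T,
      (nn O (integralClosure ℤ K) m σ (rep q) a : ℂ) * F q s) 1 := by
    intro T
    induction T using Finset.induction_on with
    | empty => simp
    | insert q T hq ih =>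
      simp only [Finset.sum_insert hq]
      exact ((MeromorphicAt.const _ _).fun_mul (hF q).2).fun_add ih
  exact key Finset.univ

/-- **The monoid Stark conjecture and universal rational approximations.** `K` is a real quadratic field with a fixed
embedding into `ℝ`, and `σ` is the other embedding. -/
theorem result :
    -- 0. the weights exist
    ((∀ γ : ℝ, Ck 1 γ = -(Real.eulerMascheroniConstant + γ * Complex.I)) ∧
      ∀ γ : ℝ, ∃ ρ, IsRational 1 γ ρ) ∧
    ∀ γ : ℝ, Real.pi / 2 < γ → ∀ ρ : ℕ → ℕ →₀ ℚ, IsRational 1 γ ρ →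
    ∀ (K : Type) [Field K] [NumberField K] [Algebra K ℝ], Module.finrank ℚ K = 2 →
    ∀ σ : K →+* ℝ, σ ≠ algebraMap K ℝ →
    (∀ (O : Subalgebra ℤ K) (m : Submodule ℤ K), IsOrder O → IsModulus O m →
      (∃ κ : K, IsMinusOne σ O m κ) ∧ ∀ κ : K, IsMinusOne σ O m κ →
      -- 1. the approximations
      (∀ a, InMonoid O m a → ∀ F : ℂ → ℂ, IsZeta σ O m a F →
        (deriv F 0).im = 0 ∧ (fun N : ℕ => (dcomb ρ (zco O m σ κ a) N : ℝ) - (deriv F 0).re) =O[atTop]
          (fun N : ℕ => 1 / (N : ℝ))) ∧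
      -- 2. Q1 for one order and one modulus
      (Question σ O m ↔ HasContinuations σ O m ∧ Approximable σ O m κ ρ)) ∧
    -- 3. Q1 for all orders and moduli
    ((∀ (O : Subalgebra ℤ K) (m : Submodule ℤ K), IsOrder O → IsModulus O m → Question σ O m) ↔
      ∀ m : Submodule ℤ K, IsModulus (integralClosure ℤ K) m →
        HasContinuations σ (integralClosure ℤ K) m ∧
        ∃ κ : K, IsMinusOne σ (integralClosure ℤ K) m κ ∧ Approximable σ (integralClosure ℤ K) m κ ρ) := by
  refine ⟨⟨fun γ => Ck_one γ, fun γ => exists_rational 1 γ⟩, ?_⟩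
  intro γ hγ ρ hρ K _ _ _ hK σ hσ
  have hex : ∀ (O : Subalgebra ℤ K) (m : Submodule ℤ K), IsOrder O → IsModulus O m →
      ∃ κ : K, IsMinusOne σ O m κ := by
    intro O m hO hm
    have P := mkPair hO hO le_rfl hm
    obtain ⟨κ, h1, h2, h3⟩ := P.exists_rho σ
    exact ⟨κ, h3, P.bm h1, h2⟩
  refine ⟨fun O m hO hm => ⟨hex O m hO hm, fun κ hκ => ⟨fun a ha F hF => ⟨hF.1.deriv_real, ?_⟩,
    question_iff hK hσ hO hm hκ hγ hρ⟩⟩, ?_, ?_⟩
  · exact isZ_law hm.md (fin_of hO hm) hκ.mem hκ.minus hκ.pos ha hF.1 hF.2 hγ hρ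
  · intro h m hm
    obtain ⟨κ, hκ⟩ := hex _ m (isOrder_maxOrder K) hm
    obtain ⟨h1, h2⟩ := (question_iff hK hσ (isOrder_maxOrder K) hm hκ hγ hρ).1 (h _ m (isOrder_maxOrder K) hm)
    exact ⟨h1, κ, hκ, h2⟩
  · intro h O m hO hm
    have hmax := isOrder_maxOrder K
    have hle := mem_maxOrder_of_fg hO.1
    have hm' := colon_isModulus hO hmax hle hm
    obtain ⟨h1, κ, hκ, h2⟩ := h _ hm'
    have hQ := (question_iff hK hσ hmax hm' hκ hγ hρ).2 ⟨h1, h2⟩
    exact of_stark hO hm (has_order hO hm hQ) (reduction σ (mkPair hO hmax hle hm) (stark_of hQ))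

end Pool.Agent.Results.MP_6bf7a3_nt.RationalApproximations
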